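import Pool.Agent.W_4481e3_h13.MLDef

/-!
Real `a`, `L = 2`: the main lemma `MLStmt a` implies that for almost every `u` the falling points are
dense in the fibre over `u`.
-/

open MeasureTheory Filter Topology Set
open scoped ComplexConjugate

namespace Pool.Agent.W_MP_4481e3_an

/-- multiplier of the fibre map at time `n` -/
noncomputable def hh (a : ℝ) (n : ℕ) (u : ℝ) (z : ℂ) : ℂ :=
  1 + (a : ℂ) * (Real.cos (2 * Real.pi * (2 ^ n * u)) : ℝ) * (1 - 2 * O (a : ℂ) 2 n u z)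

/-- derivative of the fibre orbit -/
noncomputable def DDr (a : ℝ) : ℕ → ℝ → ℂ → ℂ
  | 0, _, _ => 1
  | n + 1, u, z => DDr a n u z * hh a n u z

lemma O2_succ (a : ℝ) (n : ℕ) (u : ℝ) (z : ℂ) : O (a : ℂ) 2 (n + 1) u z = O (a : ℂ) 2 n u z +
    (a : ℂ) * (Real.cos (2 * Real.pi * (2 ^ n * u)) : ℝ) * O (a : ℂ) 2 n u z *
      (1 - O (a : ℂ) 2 n u z) := by
  have h := O_real_succ (α := (a : ℂ)) (L := 2) n u z
  rw [h]
  norm_num

lemma hasDerivAt_O (a : ℝ) (n : ℕ) (u : ℝ) (z : ℂ) :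
    HasDerivAt (fun z : ℂ => O (a : ℂ) 2 n u z) (DDr a n u z) z := by
  induction n with
  | zero => exact hasDerivAt_id z
  | succ n ih =>
    have h1 : (fun z : ℂ => O (a : ℂ) 2 (n + 1) u z) = fun z => O (a : ℂ) 2 n u z +
        (a : ℂ) * (Real.cos (2 * Real.pi * (2 ^ n * u)) : ℝ) * O (a : ℂ) 2 n u z *
        (1 - O (a : ℂ) 2 n u z) := by
      funext z; exact O2_succ a n u z
    rw [h1]
    have h2 := (ih.const_mul ((a : ℂ) * (Real.cos (2 * Real.pi * (2 ^ n * u)) : ℝ))).mul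
      (ih.const_sub 1)
    have h3 := ih.add h2
    refine h3.congr_deriv ?_
    simp only [DDr, hh]
    ring

lemma differentiable_O (a : ℝ) (n : ℕ) (u : ℝ) :
    Differentiable ℂ fun z : ℂ => O (a : ℂ) 2 n u z :=
  fun z => (hasDerivAt_O a n u z).differentiableAt

lemma im_O_succ (a : ℝ) (n : ℕ) (u : ℝ) (z : ℂ) :
    (O (a : ℂ) 2 (n + 1) u z).im = (O (a : ℂ) 2 n u z).im * (hh a n u z).re := by
  rw [O2_succ, hh]
  simp only [Complex.add_im, Complex.mul_im, Complex.mul_re, Complex.sub_im, Complex.sub_re,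
    Complex.ofReal_re, Complex.ofReal_im, Complex.one_re, Complex.one_im, Complex.add_re,
    Complex.re_ofNat, Complex.im_ofNat]
  ring

lemma im_hh (a : ℝ) (n : ℕ) (u : ℝ) (z : ℂ) :
    (hh a n u z).im = -2 * a * Real.cos (2 * Real.pi * (2 ^ n * u)) * (O (a : ℂ) 2 n u z).im := by
  rw [hh]
  simp only [Complex.add_im, Complex.mul_im, Complex.mul_re, Complex.sub_im, Complex.sub_re,
    Complex.ofReal_re, Complex.ofReal_im, Complex.one_re, Complex.one_im,
    Complex.re_ofNat, Complex.im_ofNat]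
  ring

lemma O_at_zero (a : ℝ) (n : ℕ) (u : ℝ) : O (a : ℂ) 2 n u 0 = 0 := by
  induction n with
  | zero => rfl
  | succ n ih => rw [O2_succ, ih]; simp

lemma O_at_one (a : ℝ) (n : ℕ) (u : ℝ) : O (a : ℂ) 2 n u 1 = 1 := by
  induction n with
  | zero => rfl
  | succ n ih => rw [O2_succ, ih]; simp

lemma im_O_real (a : ℝ) (n : ℕ) (u x : ℝ) : (O (a : ℂ) 2 n u (x : ℂ)).im = 0 := by
  induction n with
  | zero => simp
  | succ n ih => rw [im_O_succ, ih, zero_mul]

lemma Fall_of_shift {α : ℂ} {L n : ℕ} {u : ℝ} {z : ℂ}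
    (h : (L : ℝ) ^ n * u ∈ Fall α L (O α L n u z)) : u ∈ Fall α L z := by
  rcases h with h | h | h
  · left
    rw [← tendsto_add_atTop_iff_nat n]
    refine h.congr fun k => ?_
    rw [add_comm, O_shift_real]
  · right; left
    rw [← tendsto_add_atTop_iff_nat n]
    refine h.congr fun k => ?_
    rw [add_comm, O_shift_real]
  · right; right
    rw [← tendsto_add_atTop_iff_nat n]
    refine h.congr fun k => ?_
    rw [add_comm, O_shift_real]

/-- open sets of non-falling points never meet the real axis -/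
lemma im_ne_of_open {a : ℝ} {u : ℝ} {U : Set ℂ} (hU : IsOpen U)
    (hUF : ∀ z ∈ U, u ∉ Fall (a : ℂ) 2 z)
    (hq : ∀ (n : ℕ) (q : ℚ), (2:ℝ) ^ n * u ∈ Fall (a : ℂ) 2 (((q : ℝ) : ℂ))) (n : ℕ) {z : ℂ}
    (hz : z ∈ U) : (O (a : ℂ) 2 n u z).im ≠ 0 := by
  intro h0
  set g : ℂ → ℂ := fun z => O (a : ℂ) 2 n u z with hg
  have hd : Differentiable ℂ g := differentiable_O a n u
  have han : AnalyticOnNhd ℂ g univ := Complex.analyticOnNhd_univ_iff_differentiable.2 hd
  have hopen : IsOpen (g '' U) := by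
    rcases han.is_constant_or_isOpen isPreconnected_univ with ⟨w, hw⟩ | h
    · exfalso
      have h1 := hw 0 (mem_univ _)
      have h2 := hw 1 (mem_univ _)
      simp only [hg] at h1 h2
      rw [O_at_zero] at h1
      rw [O_at_one] at h2
      rw [← h1] at h2
      exact one_ne_zero h2
    · exact h U (subset_univ _) hU
  have hmem : g z ∈ g '' U := mem_image_of_mem _ hz
  obtain ⟨ε, hε, hball⟩ := Metric.isOpen_iff.1 hopen _ hmem
  obtain ⟨q, hq1, hq2⟩ := exists_rat_btwn (show (g z).re < (g z).re + ε by linarith)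
  have hqm : (((q : ℝ) : ℂ)) ∈ Metric.ball (g z) ε := by
    rw [Metric.mem_ball, dist_eq_norm]
    have h1 : ((q : ℝ) : ℂ) - g z = (((q : ℝ) - (g z).re : ℝ) : ℂ) := by
      apply Complex.ext
      · simp
      · simp only [Complex.sub_im, Complex.ofReal_im]
        have : (g z).im = 0 := h0
        rw [this]; simp
    rw [h1, Complex.norm_real, Real.norm_eq_abs, abs_lt]
    constructor <;> linarith
  obtain ⟨w, hw, hgw⟩ := hball hqm
  apply hUF w hw
  apply Fall_of_shift (n := n)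
  have h2 : O (a : ℂ) 2 n u w = ((q : ℝ) : ℂ) := hgw
  rw [h2]
  have h3 : (((2:ℕ) : ℝ)) ^ n * u = (2:ℝ) ^ n * u := by norm_num
  rw [h3]
  exact hq n q

/-- Schwarz–Pick for maps of a disc to a half plane -/
lemma schwarz_pick_half {g : ℂ → ℂ} (hg : Differentiable ℂ g) {z₀ g' : ℂ} {r : ℝ} (hr : 0 < r)
    (hd : HasDerivAt g g' z₀) (him : ∀ z ∈ Metric.closedBall z₀ r, (g z).im ≠ 0) :
    r * ‖g'‖ ≤ 2 * |(g z₀).im| := by
  set w₀ := g z₀ with hw₀
  have hz₀ : z₀ ∈ Metric.closedBall z₀ r := Metric.mem_closedBall_self hr.le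
  have hw₀im : w₀.im ≠ 0 := him _ hz₀
  -- constant sign
  have hsign : ∀ z ∈ Metric.closedBall z₀ r, 0 < (g z).im * w₀.im := by
    intro z hz
    have hpre : IsPreconnected (Metric.closedBall z₀ r) := (convex_closedBall z₀ r).isPreconnected
    have hcont : ContinuousOn (fun z => (g z).im) (Metric.closedBall z₀ r) :=
      (Complex.continuous_im.comp hg.continuous).continuousOn
    by_contra hneg
    push Not at hneg
    rcases lt_or_gt_of_ne hw₀im with h1 | h1
    · have h2 : 0 ≤ (g z).im := by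
        by_contra hc
        push Not at hc
        have := mul_pos_of_neg_of_neg hc h1
        linarith
      obtain ⟨x, hx, hx0⟩ := hpre.intermediate_value hz₀ hz hcont ⟨h1.le, h2⟩
      exact him x hx hx0
    · have h2 : (g z).im ≤ 0 := by
        by_contra hc
        push Not at hc
        have := mul_pos hc h1
        linarith
      obtain ⟨x, hx, hx0⟩ := hpre.intermediate_value hz hz₀ hcont ⟨h2, h1.le⟩
      exact him x hx hx0
  have hden : ∀ z ∈ Metric.closedBall z₀ r, g z - conj w₀ ≠ 0 := by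
    intro z hz h0
    have h1 : (g z).im = -w₀.im := by
      have := congrArg Complex.im h0
      simp only [Complex.sub_im, Complex.conj_im, Complex.zero_im] at this
      linarith
    have h2 := hsign z hz
    rw [h1] at h2
    nlinarith [sq_nonneg w₀.im]
  set h : ℂ → ℂ := fun z => (g z - w₀) / (g z - conj w₀) with hh
  have hdiff : DifferentiableOn ℂ h (Metric.closedBall z₀ r) := by
    intro z hz
    exact (((hg z).sub_const w₀).div ((hg z).sub_const (conj w₀)) (hden z hz)).differentiableWithinAt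
  have hdc : DiffContOnCl ℂ h (Metric.ball z₀ r) := by
    apply DifferentiableOn.diffContOnCl
    rw [closure_ball z₀ hr.ne']
    exact hdiff
  have hle : ∀ z ∈ Metric.sphere z₀ r, ‖h z‖ ≤ 1 := by
    intro z hz
    have hz' := Metric.sphere_subset_closedBall hz
    have h1 := hsign z hz'
    simp only [hh]
    rw [norm_div]
    apply div_le_one_of_le₀ _ (norm_nonneg _)
    apply le_of_sq_le_sq _ (norm_nonneg _)
    rw [Complex.sq_norm, Complex.sq_norm, Complex.normSq_apply, Complex.normSq_apply]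
    simp only [Complex.sub_re, Complex.sub_im, Complex.conj_re, Complex.conj_im]
    nlinarith
  have hder := Complex.norm_deriv_le_of_forall_mem_sphere_norm_le hr hdc hle
  have hder2 : HasDerivAt h (g' / (w₀ - conj w₀)) z₀ := by
    have h1 := (hd.sub_const w₀).div (hd.sub_const (conj w₀)) (hden z₀ hz₀)
    refine h1.congr_deriv ?_
    have h2 : w₀ - conj w₀ ≠ 0 := hden z₀ hz₀
    rw [← hw₀]
    field_simp
    ring
  rw [hder2.deriv, norm_div] at hder
  have hn : ‖w₀ - conj w₀‖ = 2 * |w₀.im| := by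
    have h1 : w₀ - conj w₀ = ((2 * w₀.im : ℝ) : ℂ) * Complex.I := by
      rw [Complex.sub_conj]
    rw [h1, norm_mul, Complex.norm_I, mul_one, Complex.norm_real, Real.norm_eq_abs, abs_mul,
      abs_of_pos (by norm_num : (0:ℝ) < 2)]
  rw [hn] at hder
  have hpos : 0 < 2 * |w₀.im| := by
    have := abs_pos.2 hw₀im
    linarith
  rw [div_le_div_iff₀ hpos hr] at hder
  linarith

/-- the set of bad parameters for the disc of radius `r` about `z` -/
def GG (a : ℝ) (z : ℂ) (r : ℝ) : Set ℝ :=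
  {u | u ∉ Fall (a : ℂ) 2 z ∧ ∀ n : ℕ, (O (a : ℂ) 2 n u z).im ≠ 0 ∧
    r * ‖DDr a n u z‖ ≤ 2 * |(O (a : ℂ) 2 n u z).im|}

lemma measurable_hh (a : ℝ) (n : ℕ) (z : ℂ) : Measurable fun u : ℝ => hh a n u z := by
  have h1 : Measurable fun u : ℝ => O (a : ℂ) 2 n u z := O_real_measurable n z
  have h2 : Measurable fun u : ℝ => ((Real.cos (2 * Real.pi * (2 ^ n * u)) : ℝ) : ℂ) := by
    apply Continuous.measurable
    fun_prop
  unfold hh
  exact measurable_const.add ((measurable_const.mul h2).mul (measurable_const.sub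
    (measurable_const.mul h1)))

lemma measurable_DD (a : ℝ) (n : ℕ) (z : ℂ) : Measurable fun u : ℝ => DDr a n u z := by
  induction n with
  | zero => exact measurable_const
  | succ n ih => exact ih.mul (measurable_hh a n z)

lemma GG_measurable (a : ℝ) (z : ℂ) (r : ℝ) : MeasurableSet (GG a z r) := by
  have h0 : GG a z r = (Fall (a : ℂ) 2 z)ᶜ ∩ ⋂ n : ℕ, ({u : ℝ | (O (a : ℂ) 2 n u z).im ≠ 0} ∩
      {u : ℝ | r * ‖DDr a n u z‖ ≤ 2 * |(O (a : ℂ) 2 n u z).im|}) := by
    ext u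
    simp [GG]
  rw [h0]
  refine (Fall_measurable z).compl.inter (MeasurableSet.iInter fun n => ?_)
  have h1 : Measurable fun u : ℝ => (O (a : ℂ) 2 n u z).im :=
    Complex.measurable_im.comp (O_real_measurable n z)
  refine MeasurableSet.inter ?_ ?_
  · exact (h1 (measurableSet_singleton 0)).compl
  · exact measurableSet_le (measurable_const.mul (measurable_DD a n z).norm)
      (measurable_const.mul (h1.norm))

lemma O2_add_int (a : ℝ) (n : ℕ) (u : ℝ) (m : ℤ) (z : ℂ) :
    O (a : ℂ) 2 n ((u + m : ℝ) : ℂ) z = O (a : ℂ) 2 n u z := by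
  have := O_add_int (α := (a : ℂ)) (L := 2) n (u : ℂ) z m
  rw [← this]
  push_cast
  rfl

lemma DD_eq_deriv (a : ℝ) (n : ℕ) (u : ℝ) (z : ℂ) :
    DDr a n u z = deriv (fun z : ℂ => O (a : ℂ) 2 n u z) z := (hasDerivAt_O a n u z).deriv.symm

lemma Fall2_per (a : ℝ) (z : ℂ) : Per (Fall (a : ℂ) 2 z) := by
  intro u m
  unfold Fall
  simp only [mem_ofPred_eq, O2_add_int]

lemma GG_per (a : ℝ) (z : ℂ) (r : ℝ) : Per (GG a z r) := by
  intro u m
  unfold GG
  simp only [mem_ofPred_eq, O2_add_int, DD_eq_deriv]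
  rw [Fall2_per a z u m]

lemma Per.null {A : Set ℝ} (h : Per A) (hA : MeasurableSet A) (h0 : volume (A ∩ Ioc 0 1) = 0) :
    volume A = 0 := by
  have h1 : A ⊆ ⋃ m : ℤ, (A ∩ Ioc (m : ℝ) (m + 1)) := by
    intro x hx
    rw [mem_iUnion]
    refine ⟨⌈x⌉ - 1, hx, ?_, ?_⟩
    · push_cast
      linarith [Int.ceil_lt_add_one x]
    · push_cast
      linarith [Int.le_ceil x]
  refine measure_mono_null h1 (measure_iUnion_null fun m => ?_)
  have := h.vol_Ioc hA (m : ℝ) 0
  rw [this, zero_add]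
  exact h0

lemma norm_hh_le {a ρ : ℝ} (n : ℕ) (u : ℝ) (z : ℂ) (h : ‖O (a : ℂ) 2 n u z‖ ≤ ρ) :
    ‖hh a n u z‖ ≤ 1 + |a| * (1 + 2 * ρ) := by
  unfold hh
  refine (norm_add_le _ _).trans ?_
  rw [norm_one, norm_mul, norm_mul, Complex.norm_real, Complex.norm_real, Real.norm_eq_abs,
    Real.norm_eq_abs]
  have h1 := Real.abs_cos_le_one (2 * Real.pi * (2 ^ n * u))
  have h2 : ‖1 - 2 * O (a : ℂ) 2 n u z‖ ≤ 1 + 2 * ρ := by
    refine (norm_sub_le _ _).trans ?_
    rw [norm_one, norm_mul]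
    have : ‖(2:ℂ)‖ = 2 := by simp
    rw [this]
    linarith
  have h3 : |a| * |Real.cos (2 * Real.pi * (2 ^ n * u))| ≤ |a| :=
    mul_le_of_le_one_right (abs_nonneg a) h1
  have h4 : |a| * |Real.cos (2 * Real.pi * (2 ^ n * u))| * ‖1 - 2 * O (a : ℂ) 2 n u z‖ ≤
      |a| * (1 + 2 * ρ) := by
    gcongr
  linarith

lemma GG_tendsto {a : ℝ} {z : ℂ} {r : ℝ} (hr : 0 < r) {u : ℝ} (hu : u ∈ GG a z r) :
    Tendsto (fun n => |(hh a n u z).re| / ‖hh a n u z‖) atTop (𝓝 1) := by
  obtain ⟨-, hu⟩ := hu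
  have hre : ∀ n, (hh a n u z).re ≠ 0 := by
    intro n h0
    apply (hu (n + 1)).1
    rw [im_O_succ, h0, mul_zero]
  have hne : ∀ n, hh a n u z ≠ 0 := by
    intro n h0
    apply hre n
    rw [h0]; rfl
  have hDD : ∀ n, DDr a n u z ≠ 0 := by
    intro n
    induction n with
    | zero => exact one_ne_zero
    | succ n ih => exact mul_ne_zero ih (hne n)
  set R : ℕ → ℝ := fun n => |(O (a : ℂ) 2 n u z).im| / ‖DDr a n u z‖ with hR
  have hRpos : ∀ n, 0 < R n := fun n =>
    div_pos (abs_pos.2 (hu n).1) (norm_pos_iff.2 (hDD n))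
  have hRr : ∀ n, r / 2 ≤ R n := by
    intro n
    simp only [hR]
    rw [le_div_iff₀ (norm_pos_iff.2 (hDD n))]
    have := (hu n).2
    linarith
  have hRs : ∀ n, R (n + 1) = R n * (|(hh a n u z).re| / ‖hh a n u z‖) := by
    intro n
    simp only [hR]
    rw [im_O_succ, abs_mul]
    have : DDr a (n + 1) u z = DDr a n u z * hh a n u z := rfl
    rw [this, norm_mul]
    have h1 := norm_pos_iff.2 (hDD n)
    have h2 := norm_pos_iff.2 (hne n)
    field_simp
  have hq1 : ∀ n, |(hh a n u z).re| / ‖hh a n u z‖ ≤ 1 := fun n =>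
    div_le_one_of_le₀ (Complex.abs_re_le_norm _) (norm_nonneg _)
  have hanti : Antitone R := by
    apply antitone_nat_of_succ_le
    intro n
    rw [hRs]
    exact mul_le_of_le_one_right (hRpos n).le (hq1 n)
  have hbdd : BddBelow (range R) := ⟨0, by rintro _ ⟨n, rfl⟩; exact (hRpos n).le⟩
  have hlim := tendsto_atTop_ciInf hanti hbdd
  set ℓ := ⨅ n, R n with hℓ
  have hℓpos : 0 < ℓ := by
    have : r / 2 ≤ ℓ := le_ciInf hRr
    linarith
  have hlim2 := (tendsto_add_atTop_iff_nat 1).2 hlim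
  have h3 := hlim2.div hlim hℓpos.ne'
  rw [div_self hℓpos.ne'] at h3
  refine h3.congr fun n => ?_
  simp only [Pi.div_apply]
  rw [hRs, mul_div_cancel_left₀ _ (hRpos n).ne']

lemma GG_null {a : ℝ} (ha : 0 < a) (hML : MLStmt a) (z : ℂ) {r : ℝ} (hr : 0 < r) :
    volume (GG a z r) = 0 := by
  apply (GG_per a z r).null (GG_measurable a z r)
  set S := GG a z r ∩ Ioc 0 1 with hS
  have hSm : MeasurableSet S := (GG_measurable a z r).inter measurableSet_Ioc
  have hStop : volume S ≠ ⊤ := by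
    refine ne_top_of_le_ne_top ?_ (measure_mono inter_subset_right)
    simp
  have hmeas : ∀ n : ℕ, StronglyMeasurable fun u : ℝ => |(hh a n u z).re| / ‖hh a n u z‖ := by
    intro n
    have h1 := measurable_hh a n z
    exact ((Complex.measurable_re.comp h1).norm.div h1.norm).stronglyMeasurable
  refine le_antisymm (ENNReal.le_of_forall_pos_le_add fun ε hε _ => ?_) (zero_le)
  rw [zero_add]
  obtain ⟨t, htS, htm, htε, hunif⟩ := tendstoUniformlyOn_of_ae_tendsto (μ := volume) (ε := (ε : ℝ))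
    (f := fun n u => |(hh a n u z).re| / ‖hh a n u z‖) (g := fun _ => (1:ℝ)) hmeas
    stronglyMeasurable_const hSm hStop
    (Filter.Eventually.of_forall fun u hu => GG_tendsto hr hu.1) (by exact_mod_cast hε)
  have hnull : volume ((S \ t) ∩ Ioc 0 1) = 0 := by
    apply hML z (S \ t) (hSm.diff htm) (fun u hu => hu.1.1.1)
    intro ρ η hη
    set H : ℝ := 1 + |a| * (1 + 2 * max ρ 0) with hH
    have hH0 : 0 < H := by
      have : 0 ≤ |a| * (1 + 2 * max ρ 0) := by positivity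
      linarith
    set δ : ℝ := (a * η / H) ^ 2 / 2 with hδ
    have hδ0 : 0 < δ := by positivity
    rw [Metric.tendstoUniformlyOn_iff] at hunif
    obtain ⟨N, hN⟩ := eventually_atTop.1 (hunif δ hδ0)
    refine ⟨N, fun n hn u hu hc hO => ?_⟩
    have h1 := hN n hn u hu
    rw [Real.dist_eq] at h1
    set w := hh a n u z with hw
    have hwne : w ≠ 0 := by
      intro h0
      have h2 := (hu.1.1.2 (n + 1)).1
      rw [im_O_succ, ← hw, h0] at h2
      simp at h2
    have hwpos : 0 < ‖w‖ := norm_pos_iff.2 hwne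
    have hwle : ‖w‖ ≤ H := norm_hh_le n u z (hO.trans (le_max_left _ _))
    set q := |w.re| / ‖w‖ with hq
    have hq0 : 0 ≤ q := by positivity
    have hq1 : 1 - δ < q := by
      have := (abs_lt.1 h1).2
      linarith
    have hq2 : q ≤ 1 := div_le_one_of_le₀ (Complex.abs_re_le_norm _) (norm_nonneg _)
    -- |im w|^2 = |w|^2 (1 - q^2)
    have h3 : w.im ^ 2 = ‖w‖ ^ 2 * (1 - q ^ 2) := by
      have h4 : ‖w‖ ^ 2 = w.re ^ 2 + w.im ^ 2 := by
        rw [Complex.sq_norm, Complex.normSq_apply]; ring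
      have h5 : ‖w‖ ^ 2 * q ^ 2 = w.re ^ 2 := by
        rw [hq, div_pow, sq_abs]
        field_simp
      nlinarith
    have h6 : 1 - q ^ 2 ≤ 2 * δ := by nlinarith
    have h7 : w.im ^ 2 ≤ (a * η) ^ 2 := by
      rw [h3]
      calc ‖w‖ ^ 2 * (1 - q ^ 2) ≤ H ^ 2 * (2 * δ) := by
            have : 0 ≤ 1 - q ^ 2 := by nlinarith
            gcongr
        _ = (a * η) ^ 2 := by
            rw [hδ]
            field_simp
    have h8 : |w.im| ≤ a * η := by
      rw [← sq_abs] at h7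
      exact le_of_sq_le_sq h7 (by positivity)
    rw [hw, im_hh, abs_mul, abs_mul, abs_mul, abs_of_pos ha] at h8
    have h9 : |(-2:ℝ)| = 2 := by norm_num
    rw [h9] at h8
    set V := |(O (a : ℂ) 2 n u z).im| with hV
    have hV0 : 0 ≤ V := abs_nonneg _
    have h10 : a * V ≤ a * η := by
      calc a * V = 2 * a * (1 / 2) * V := by ring
        _ ≤ 2 * a * |Real.cos (2 * Real.pi * (2 ^ n * u))| * V := by gcongr
        _ ≤ a * η := h8
    exact le_of_mul_le_mul_left h10 ha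
  have hsub : S ⊆ t ∪ ((S \ t) ∩ Ioc 0 1) := by
    intro u hu
    by_cases h : u ∈ t
    · left; exact h
    · right; exact ⟨⟨hu, h⟩, hu.2⟩
  calc volume S ≤ volume t + volume ((S \ t) ∩ Ioc 0 1) :=
        (measure_mono hsub).trans (measure_union_le _ _)
    _ ≤ ENNReal.ofReal ε + 0 := by rw [hnull]; gcongr
    _ = ε := by rw [add_zero, ENNReal.ofReal_coe_nnreal]

lemma real_falls {a : ℝ} (hML : MLStmt a) (x : ℝ) : volume (Fall (a : ℂ) 2 (x : ℂ))ᶜ = 0 := by
  apply (Fall2_per a _).compl.null (Fall_measurable _).compl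
  apply hML (x : ℂ) _ (Fall_measurable _).compl (fun u hu => hu)
  intro ρ η hη
  refine ⟨0, fun n _ u _ _ _ => ?_⟩
  rw [im_O_real, abs_zero]
  exact hη.le

/-- **Density of falling points**, real `a > 0`, `L = 2`, from the main lemma. -/
theorem real_dense {a : ℝ} (ha : 0 < a) (hML : MLStmt a) :
    ∀ᵐ u : ℝ, Dense {z : ℂ | u ∈ Fall (a : ℂ) 2 z} := by
  have h1 : ∀ᵐ u : ℝ, ∀ (n : ℕ) (q : ℚ), (2:ℝ) ^ n * u ∈ Fall (a : ℂ) 2 (((q : ℝ) : ℂ)) := by
    rw [ae_all_iff]
    intro n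
    rw [ae_all_iff]
    intro q
    rw [ae_iff]
    have h2 : {u : ℝ | ¬ (2:ℝ) ^ n * u ∈ Fall (a : ℂ) 2 (((q : ℝ) : ℂ))} =
        (fun u => (2:ℝ) ^ n * u) ⁻¹' (Fall (a : ℂ) 2 (((q : ℝ) : ℂ)))ᶜ := rfl
    rw [h2, Real.volume_preimage_mul_left (by positivity), real_falls hML, mul_zero]
  have h2 : ∀ᵐ u : ℝ, ∀ (x y : ℚ) (r : ℚ), 0 < r →
      u ∉ GG a ((x : ℝ) + (y : ℝ) * Complex.I) (r : ℝ) := by
    rw [ae_all_iff]; intro x
    rw [ae_all_iff]; intro y
    rw [ae_all_iff]; intro r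
    by_cases hr : 0 < r
    · have h3 := GG_null ha hML ((x : ℝ) + (y : ℝ) * Complex.I) (r := (r : ℝ)) (by exact_mod_cast hr)
      rw [measure_eq_zero_iff_ae_notMem] at h3
      filter_upwards [h3] with u hu _
      exact hu
    · exact Filter.Eventually.of_forall fun u h => absurd h hr
  filter_upwards [h1, h2] with u hu1 hu2
  rw [Metric.dense_iff]
  intro z₁ R hR
  by_contra hemp
  rw [Set.not_nonempty_iff_eq_empty] at hemp
  have hUF : ∀ z ∈ Metric.ball z₁ R, u ∉ Fall (a : ℂ) 2 z := by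
    intro z hz hf
    have : z ∈ Metric.ball z₁ R ∩ {z : ℂ | u ∈ Fall (a : ℂ) 2 z} := ⟨hz, hf⟩
    rw [hemp] at this
    exact this
  have him := fun n {z} (hz : z ∈ Metric.ball z₁ R) =>
    im_ne_of_open Metric.isOpen_ball hUF hu1 n hz
  obtain ⟨x, hx1, hx2⟩ := exists_rat_btwn (show z₁.re < z₁.re + R / 4 by linarith)
  obtain ⟨y, hy1, hy2⟩ := exists_rat_btwn (show z₁.im < z₁.im + R / 4 by linarith)
  obtain ⟨r, hr1, hr2⟩ := exists_rat_btwn (show (0:ℝ) < R / 2 by linarith)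
  set z₀ : ℂ := (x : ℝ) + (y : ℝ) * Complex.I with hz₀
  have hz₀re : z₀.re = x := by simp [hz₀]
  have hz₀im : z₀.im = y := by simp [hz₀]
  have hdist : dist z₀ z₁ < R / 2 := by
    rw [dist_eq_norm]
    refine (Complex.norm_le_abs_re_add_abs_im _).trans_lt ?_
    rw [Complex.sub_re, Complex.sub_im, hz₀re, hz₀im]
    have h3 : |(x : ℝ) - z₁.re| < R / 4 := by rw [abs_lt]; constructor <;> linarith
    have h4 : |(y : ℝ) - z₁.im| < R / 4 := by rw [abs_lt]; constructor <;> linarith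
    linarith
  have hsub : Metric.closedBall z₀ (r : ℝ) ⊆ Metric.ball z₁ R := by
    intro z hz
    rw [Metric.mem_closedBall] at hz
    rw [Metric.mem_ball]
    calc dist z z₁ ≤ dist z z₀ + dist z₀ z₁ := dist_triangle _ _ _
      _ < R := by linarith
  have hz₀m : z₀ ∈ Metric.ball z₁ R := hsub (Metric.mem_closedBall_self hr1.le)
  apply hu2 x y r (by exact_mod_cast hr1)
  refine ⟨hUF z₀ hz₀m, fun n => ⟨him n hz₀m, ?_⟩⟩
  exact schwarz_pick_half (differentiable_O a n u) hr1 (hasDerivAt_O a n u z₀)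
    (fun z hz => him n (hsub hz))

end Pool.Agent.W_MP_4481e3_an
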