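import Pool.Agent.W_MP_4481e3_an.Zero

/-!
For real `a`, `0 < |a| < 1`, the fibre Lyapunov exponent at `0` is negative.
-/

open MeasureTheory Filter Topology Set

namespace Pool.Agent.W_MP_4481e3_an

lemma logf_real (a x : ℝ) :
    logf (a : ℂ) x = Real.log (1 + a * Real.cos (2 * Real.pi * x)) := by
  unfold logf
  have h2 : (1 : ℂ) + (a : ℂ) * (Real.cos (2 * Real.pi * x) : ℂ) =
      ((1 + a * Real.cos (2 * Real.pi * x) : ℝ) : ℂ) := by push_cast; ring
  rw [h2, Complex.norm_real, Real.norm_eq_abs, Real.log_abs]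

theorem logf_int_neg {a : ℝ} (h0 : 0 < |a|) (h1 : |a| < 1) :
    ∫ x in (0:ℝ)..1, logf (a : ℂ) x < 0 := by
  have hα : ‖(a : ℂ)‖ < 1 := by rw [Complex.norm_real]; exact h1
  have hc : Continuous (logf (a : ℂ)) := logf_continuous hα
  have hper : Function.Periodic (logf (a : ℂ)) 1 := logf_periodic _
  have hshift : ∫ x in (0:ℝ)..1, logf (a : ℂ) (x + 1 / 2) = ∫ x in (0:ℝ)..1, logf (a : ℂ) x := by
    rw [intervalIntegral.integral_comp_add_right (fun x => logf (a : ℂ) x)]
    have := hper.intervalIntegral_add_eq (1 / 2) 0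
    have e1 : (0:ℝ) + 1 / 2 = 1 / 2 := by norm_num
    have e2 : (1:ℝ) + 1 / 2 = 1 / 2 + 1 := by norm_num
    have e3 : (0:ℝ) + 1 = 1 := by norm_num
    rw [e1, e2, this, e3]
  have hsum : ∀ x : ℝ, logf (a : ℂ) x + logf (a : ℂ) (x + 1 / 2) =
      Real.log (1 - (a * Real.cos (2 * Real.pi * x)) ^ 2) := by
    intro x
    rw [logf_real, logf_real]
    have hcos : Real.cos (2 * Real.pi * (x + 1 / 2)) = -Real.cos (2 * Real.pi * x) := by
      have : 2 * Real.pi * (x + 1 / 2) = 2 * Real.pi * x + Real.pi := by ring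
      rw [this, Real.cos_add_pi]
    rw [hcos]
    set y := a * Real.cos (2 * Real.pi * x) with hy
    have hy1 : |y| < 1 := by
      rw [hy, abs_mul]
      have := Real.abs_cos_le_one (2 * Real.pi * x)
      nlinarith [abs_nonneg a, abs_nonneg (Real.cos (2 * Real.pi * x))]
    rw [abs_lt] at hy1
    have e : 1 + a * -Real.cos (2 * Real.pi * x) = 1 - y := by rw [hy]; ring
    rw [e, ← Real.log_mul (by linarith) (by linarith)]
    congr 1; ring
  have hint : IntervalIntegrable (logf (a : ℂ)) volume 0 1 := hc.intervalIntegrable _ _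
  have hint2 : IntervalIntegrable (fun x => logf (a : ℂ) (x + 1 / 2)) volume 0 1 :=
    (hc.comp (by fun_prop)).intervalIntegrable _ _
  have hneg : ∫ x in (0:ℝ)..1, (logf (a : ℂ) x + logf (a : ℂ) (x + 1 / 2)) < 0 := by
    have hcont : Continuous fun x : ℝ => logf (a : ℂ) x + logf (a : ℂ) (x + 1 / 2) :=
      hc.add (hc.comp (by fun_prop))
    have hle : ∀ x : ℝ, logf (a : ℂ) x + logf (a : ℂ) (x + 1 / 2) ≤ 0 := by
      intro x
      rw [hsum]
      apply Real.log_nonpos
      · have hy1 : |a * Real.cos (2 * Real.pi * x)| ≤ 1 := by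
          rw [abs_mul]
          have := Real.abs_cos_le_one (2 * Real.pi * x)
          nlinarith [abs_nonneg a, abs_nonneg (Real.cos (2 * Real.pi * x))]
        have := (sq_le_one_iff_abs_le_one _).2 hy1
        linarith
      · nlinarith [sq_nonneg (a * Real.cos (2 * Real.pi * x))]
    have hlt := intervalIntegral.integral_lt_integral_of_continuousOn_of_le_of_exists_lt
      (f := fun x : ℝ => logf (a : ℂ) x + logf (a : ℂ) (x + 1 / 2)) (g := fun _ => (0:ℝ))
      (a := 0) (b := 1) one_pos hcont.continuousOn continuousOn_const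
      (fun x _ => hle x) ⟨0, ⟨le_rfl, zero_le_one⟩, ?_⟩
    · simpa using hlt
    · show logf (a : ℂ) 0 + logf (a : ℂ) (0 + 1 / 2) < 0
      rw [hsum]
      have e : a * Real.cos (2 * Real.pi * 0) = a := by simp
      rw [e]
      have ha2 : 0 < a ^ 2 := by
        rw [← sq_abs]; positivity
      have ha3 : a ^ 2 < 1 := (sq_lt_one_iff_abs_lt_one _).2 h1
      exact Real.log_neg (by linarith) (by linarith)
  rw [intervalIntegral.integral_add hint hint2, hshift] at hneg
  linarith

end Pool.Agent.W_MP_4481e3_an
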