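import Pool.Agent.W_MP_4481e3_an.Star

/-!
The interface of the real case, `L = 2`: the main lemma (statement).
-/

open MeasureTheory Filter Topology Set

namespace Pool.Agent.W_MP_4481e3_an

/-- Main lemma (statement), real `a`, `L = 2`: if no `u ∈ G` falls for `z` and the orbits of `z` tend
to the real axis, uniformly on `G`, along the times at which `|cos| ≥ 1/2` and the orbit is bounded,
then `G` is null. -/
def MLStmt (a : ℝ) : Prop := ∀ (z : ℂ) (G : Set ℝ), MeasurableSet G →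
  (∀ u ∈ G, u ∉ Fall (a : ℂ) 2 z) →
  (∀ ρ η : ℝ, 0 < η → ∃ N : ℕ, ∀ n ≥ N, ∀ u ∈ G,
    1 / 2 ≤ |Real.cos (2 * Real.pi * (2 ^ n * u))| →
    ‖O (a : ℂ) 2 n u z‖ ≤ ρ → |(O (a : ℂ) 2 n u z).im| ≤ η) →
  volume (G ∩ Ioc 0 1) = 0

end Pool.Agent.W_MP_4481e3_an
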